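import Pool.Agent.Helper386.D5V.Helper386_FF_RR

/-!
# Numerical classes of curves on closed subsets of `P^1 × P^m`: definitions

A closed subset `X` of `P^1 × P^m` is given by a set of bihomogeneous forms. A curve in `X` is given
by its function field `K` and the coordinates `(s, y)`, with values in `K`, of its generic point.
Two 1-cycles are numerically equivalent on `X` if they have the same degree with respect to the
line bundle `g^* O(1)` for all morphisms `g` from `X` to a projective space. (Each line bundle on a
projective variety is the difference of two very ample line bundles, so that these line bundles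
generate the Picard group.)
-/

set_option autoImplicit false

namespace Pool.Agent.X324.LE

open FF

/-- The monomials of degree `q` in the variables `y 0, …, y m`, given by their exponents. -/
abbrev Mon (m q : ℕ) : Type := Finset.piAntidiag (Finset.univ : Finset (Fin (m + 1))) q

/-- The bihomogeneous forms of bidegree `(p, q)` in the variables `s 0, s 1` and `y 0, …, y m`:
the coefficient with the index `(i, a)` is that of `s 0 ^ (p - i) * s 1 ^ i * y ^ a`. -/
abbrev Form (m p q : ℕ) : Type := Fin (p + 1) × Mon m q → ℂ

/-- The value of the form at the point `(s, y)`. -/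
noncomputable def Form.eval {m p q : ℕ} {K : Type} [Field K] [Algebra ℂ K] (F : Form m p q)
    (s : Fin 2 → K) (y : Fin (m + 1) → K) : K :=
  ∑ x : Fin (p + 1) × Mon m q, algebraMap ℂ K (F x) *
    (s 0 ^ (p - (x.1 : ℕ)) * s 1 ^ (x.1 : ℕ) * ∏ j, y j ^ (x.2 : Fin (m + 1) → ℕ) j)

/-- A closed subset of `P^1 × P^m`, given by its equations. -/
abbrev Closed (m : ℕ) : Type := Set (Σ d : ℕ × ℕ, Form m d.1 d.2)

/-- The product `P^1 × P^m` itself: there are no equations. -/
def whole (m : ℕ) : Closed m := ∅

/-- The hypersurface with the equation `F = 0`. -/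
def hypersurface {m p q : ℕ} (F : Form m p q) : Closed m := {⟨(p, q), F⟩}

/-- `(s, y)` are the homogeneous coordinates of a point of `X` with values in `K`. -/
def IsPoint {m : ℕ} {K : Type} [Field K] [Algebra ℂ K] (X : Closed m) (s : Fin 2 → K)
    (y : Fin (m + 1) → K) : Prop :=
  s ≠ 0 ∧ y ≠ 0 ∧ ∀ f ∈ X, f.2.eval s y = 0

/-- A curve in `X`: `K` is its function field and `(s, y)` is its generic point. -/
structure Curve {m : ℕ} (X : Closed m) : Type 1 where
  K : Type
  [field : Field K]
  [alg : Algebra ℂ K]
  [ff : IsFF ℂ K]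
  s : Fin 2 → K
  y : Fin (m + 1) → K
  isPoint : IsPoint X s y
  gen : IntermediateField.adjoin ℂ
    ({z | ∃ i j, z = s i / s j} ∪ {z | ∃ i j, z = y i / y j}) = ⊤

attribute [instance] Curve.field Curve.alg Curve.ff

/-- The smallest order of the coordinates `z i ≠ 0` at the point `P` of a smooth projective curve. -/
noncomputable def minOrd {K : Type} [Field K] [Algebra ℂ K] {n : ℕ} (P : Place ℂ K)
    (z : Fin n → K) : ℤ :=
  sInf {k : ℤ | ∃ i, z i ≠ 0 ∧ P.ord (z i) = k}

/-- The degree of `z^* O(1)` for the map given by the coordinates `z i` from the smooth projective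
curve with the function field `K` to a projective space. -/
noncomputable def degree {K : Type} [Field K] [Algebra ℂ K] {n : ℕ} (z : Fin n → K) : ℤ :=
  -∑ᶠ P : Place ℂ K, minOrd P z

/-- A morphism `g` from `X` to the projective space of dimension `N`: there are finitely many
`(N + 1)`-tuples of forms of the same bidegree, such that `g` is given by each tuple at the points
where not all members of the tuple are zero. -/
structure Mor {m : ℕ} (X : Closed m) (N : ℕ) where
  r : ℕ
  p : Fin r → ℕ
  q : Fin r → ℕ
  g : ∀ l, Fin (N + 1) → Form m (p l) (q l)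
  cover : ∀ (s : Fin 2 → ℂ) (y : Fin (m + 1) → ℂ), IsPoint X s y →
    ∃ l i, (g l i).eval s y ≠ 0
  compat : ∀ (s : Fin 2 → ℂ) (y : Fin (m + 1) → ℂ), IsPoint X s y → ∀ l l' i j,
    (g l i).eval s y * (g l' j).eval s y = (g l j).eval s y * (g l' i).eval s y

open Classical in
/-- The degree of `g^* O(1)` on the curve `C`. -/
noncomputable def Mor.degree {m N : ℕ} {X : Closed m} (g : Mor X N) (C : Curve X) : ℤ :=
  if h : ∃ l, (fun i => (g.g l i).eval C.s C.y) ≠ 0 then
    LE.degree fun i => (g.g h.choose i).eval C.s C.y
  else 0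

/-- The 1-cycles on `X` which are numerically equivalent to zero. -/
noncomputable def numZero {m : ℕ} (X : Closed m) : Submodule ℝ (Curve X →₀ ℝ) :=
  ⨅ (N : ℕ) (g : Mor X N),
    LinearMap.ker (Finsupp.linearCombination ℝ fun C : Curve X => (g.degree C : ℝ))

/-- The real vector space `N_1(X)` of 1-cycles with real coefficients modulo numerical
equivalence. -/
abbrev NOne {m : ℕ} (X : Closed m) : Type 1 := (Curve X →₀ ℝ) ⧸ numZero X

/-- The class of a curve. -/
noncomputable def cls {m : ℕ} {X : Closed m} (C : Curve X) : NOne X :=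
  Submodule.Quotient.mk (Finsupp.single C 1)

/-- The effective cone `Eff_1(X)`: the closed convex cone spanned by the classes of curves, that is,
the intersection of the closed half-spaces which contain the classes of curves. -/
def Eff {m : ℕ} (X : Closed m) : Set (NOne X) :=
  {x | ∀ φ : NOne X →ₗ[ℝ] ℝ, (∀ C, 0 ≤ φ (cls C)) → 0 ≤ φ x}

/-- A curve in `X`, as a curve in `P^1 × P^m`. -/
def Curve.incl {m : ℕ} {X : Closed m} (C : Curve X) : Curve (whole m) where
  K := C.K
  s := C.s
  y := C.y
  isPoint := ⟨C.isPoint.1, C.isPoint.2.1, fun _ hf => absurd hf (Set.notMem_empty _)⟩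
  gen := C.gen

/-- The restriction to `X` of a morphism from `P^1 × P^m` to a projective space. -/
def Mor.restrict {m N : ℕ} (X : Closed m) (g : Mor (whole m) N) : Mor X N where
  r := g.r
  p := g.p
  q := g.q
  g := g.g
  cover s y h := g.cover s y ⟨h.1, h.2.1, fun _ hf => absurd hf (Set.notMem_empty _)⟩
  compat s y h := g.compat s y ⟨h.1, h.2.1, fun _ hf => absurd hf (Set.notMem_empty _)⟩

theorem numZero_le {m : ℕ} (X : Closed m) : numZero X ≤
    Submodule.comap (Finsupp.lmapDomain ℝ ℝ (Curve.incl (X := X))) (numZero (whole m)) := by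
  intro z hz
  rw [Submodule.mem_comap]
  simp only [numZero, Submodule.mem_iInf, LinearMap.mem_ker] at hz ⊢
  intro N g
  have h1 := hz N (g.restrict X)
  rw [Finsupp.lmapDomain_apply, Finsupp.linearCombination_mapDomain]
  exact h1

/-- The push-forward `i_* : N_1(X) → N_1(P^1 × P^m)` of numerical classes. -/
noncomputable def push {m : ℕ} (X : Closed m) : NOne X →ₗ[ℝ] NOne (whole m) :=
  Submodule.mapQ _ _ (Finsupp.lmapDomain ℝ ℝ Curve.incl) (numZero_le X)

/-- `i_*` induces an isomorphism of effective cones in dimension 1: it is a linear isomorphism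
`N_1(X) → N_1(P^1 × P^m)` and maps `Eff_1(X)` onto `Eff_1(P^1 × P^m)`. -/
def InducesIso {m : ℕ} (X : Closed m) : Prop :=
  Function.Bijective (push X) ∧ push X '' Eff X = Eff (whole m)

/-- The property `P` holds for all very general forms: off the union of countably many proper
closed subsets of the affine space of all forms. -/
def VeryGeneral {m p q : ℕ} (P : Form m p q → Prop) : Prop :=
  ∃ Ψ : ℕ → MvPolynomial (Fin (p + 1) × Mon m q) ℂ, (∀ k, Ψ k ≠ 0) ∧
    ∀ F : Form m p q, (∀ k, MvPolynomial.eval F (Ψ k) ≠ 0) → P F

end Pool.Agent.X324.LE
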