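import Pool.Agent.X324.LE.Val

/-!
# General forms have no common zeros
-/

set_option autoImplicit false

namespace Pool.Agent.X324.LE

open MvPolynomial Matrix

section

variable (m q : ℕ)

/-- a monomial of degree `(m + 1) q`, `q ≥ 1`, is divisible by some `y i ^ q` -/
theorem exists_idx (α : Mon m ((m + 1) * q)) :
    ∃ i : Fin (m + 1), q ≤ (α : Fin (m + 1) → ℕ) i := by
  by_contra hc
  push Not at hc
  have h1 : ∑ j, (α : Fin (m + 1) → ℕ) j = (m + 1) * q := (Finset.mem_piAntidiag.1 α.2).1
  have h2 : ∑ j : Fin (m + 1), (α : Fin (m + 1) → ℕ) j < ∑ j : Fin (m + 1), q :=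
    Finset.sum_lt_sum_of_nonempty ⟨0, Finset.mem_univ _⟩ fun j _ => hc j
  rw [h1, Finset.sum_const, Finset.card_univ, Fintype.card_fin, smul_eq_mul] at h2
  exact lt_irrefl _ h2

/-- the value of a monomial -/
def mval {K : Type} [Field K] {m q : ℕ} (y : Fin (m + 1) → K) (a : Mon m q) : K :=
  ∏ j, y j ^ (a : Fin (m + 1) → ℕ) j

/-- the value of the coefficient of `s 0 ^ (p - i) * s 1 ^ i` -/
noncomputable def cval {K : Type} [Field K] [Algebra ℂ K] {m p q : ℕ} (F : Form m p q)
    (y : Fin (m + 1) → K) (i : Fin (p + 1)) : K :=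
  ∑ a : Mon m q, algebraMap ℂ K (F (i, a)) * mval y a

variable {m q}

theorem eval_eq {K : Type} [Field K] [Algebra ℂ K] {p : ℕ} (F : Form m p q) (s : Fin 2 → K)
    (y : Fin (m + 1) → K) : F.eval s y =
      ∑ i : Fin (p + 1), s 0 ^ (p - (i : ℕ)) * s 1 ^ (i : ℕ) * cval F y i := by
  unfold Form.eval cval
  rw [Fintype.sum_prod_type]
  refine Finset.sum_congr rfl fun i _ => ?_
  rw [Finset.mul_sum]
  refine Finset.sum_congr rfl fun a _ => ?_
  unfold mval
  ring

/-- the Macaulay matrix of the forms `F i`, `i ≤ m`, with values in a ring -/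
def mac {R : Type} [CommRing R] {p : ℕ} (hp : m ≤ p) (c : Fin (p + 1) × Mon m q → R) (N : ℕ) :
    Matrix (Mon m N) (Fin (m + 1) × Mon m (N - q)) R := fun α x =>
  ∑ a : Mon m q, if (a : Fin (m + 1) → ℕ) + (x.2 : Fin (m + 1) → ℕ) = (α : Fin (m + 1) → ℕ) then
    c (Fin.castLE (by omega) x.1, a) else 0

theorem mac_mul {K : Type} [Field K] [Algebra ℂ K] {p : ℕ} (hp : m ≤ p) (F : Form m p q) {N : ℕ}
    (hN : q ≤ N) (y : Fin (m + 1) → K) (x : Fin (m + 1) × Mon m (N - q)) :
    ∑ α : Mon m N, mval y α * algebraMap ℂ K (mac hp F N α x) =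
      mval y x.2 * cval F y (Fin.castLE (by omega) x.1) := by
  classical
  unfold mac cval
  simp only [map_sum, Finset.mul_sum]
  rw [Finset.sum_comm]
  refine Finset.sum_congr rfl fun a _ => ?_
  have hmem : (a : Fin (m + 1) → ℕ) + (x.2 : Fin (m + 1) → ℕ) ∈
      Finset.piAntidiag (Finset.univ : Finset (Fin (m + 1))) N := by
    rw [Finset.mem_piAntidiag]
    refine ⟨?_, fun _ _ => Finset.mem_univ _⟩
    have h1 : ∑ j, (a : Fin (m + 1) → ℕ) j = q := (Finset.mem_piAntidiag.1 a.2).1
    have h2 : ∑ j, (x.2 : Fin (m + 1) → ℕ) j = N - q := (Finset.mem_piAntidiag.1 x.2.2).1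
    change ∑ j, ((a : Fin (m + 1) → ℕ) j + (x.2 : Fin (m + 1) → ℕ) j) = N
    rw [Finset.sum_add_distrib, h1, h2]
    omega
  rw [Finset.sum_eq_single (⟨_, hmem⟩ : Mon m N)]
  · rw [if_pos rfl]
    unfold mval
    simp only [Pi.add_apply, pow_add, Finset.prod_mul_distrib]
    ring
  · intro α _ hα
    rw [if_neg, map_zero, mul_zero]
    intro h
    exact hα (Subtype.ext h.symm)
  · intro h
    exact absurd (Finset.mem_univ _) h

/-- General forms have no common zeros: there is a nonzero polynomial `Ψ` in the coefficients of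
`F` such that, if `Ψ F ≠ 0`, the coefficients `F i`, `i ≤ p`, `p ≥ m`, have no common zeros with
values in any extension field of `ℂ`. -/
theorem exists_disc {p : ℕ} (hp : m ≤ p) :
    ∃ Ψ : MvPolynomial (Fin (p + 1) × Mon m q) ℂ, Ψ ≠ 0 ∧ ∀ F : Form m p q, eval F Ψ ≠ 0 →
      ∀ (K : Type) [Field K] [Algebra ℂ K] (y : Fin (m + 1) → K), y ≠ 0 →
        ∃ i, cval F y i ≠ 0 := by
  classical
  obtain ⟨N, hNdef⟩ : ∃ N, N = (m + 1) * q := ⟨_, rfl⟩
  have hN : q ≤ N := by rw [hNdef]; nlinarith
  have hidx : ∀ α : Mon m N, ∃ i : Fin (m + 1), q ≤ (α : Fin (m + 1) → ℕ) i := by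
    rw [hNdef]
    exact exists_idx m q
  choose ι hι using hidx
  let B : Matrix (Fin (m + 1) × Mon m (N - q)) (Mon m N) ℂ := fun x α =>
    if x.1 = ι α ∧ (Pi.single x.1 q + (x.2 : Fin (m + 1) → ℕ) = (α : Fin (m + 1) → ℕ)) then 1 else 0
  let M : Matrix (Mon m N) (Fin (m + 1) × Mon m (N - q))
    (MvPolynomial (Fin (p + 1) × Mon m q) ℂ) := mac hp (fun x => X x) N
  have hM : ∀ F : Form m p q, M.map (eval F) = mac hp F N := by
    intro F
    ext α x
    simp only [M, mac, Matrix.map_apply, map_sum]
    refine Finset.sum_congr rfl fun a _ => ?_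
    split_ifs
    · rw [eval_X]
    · rw [map_zero]
  let Bc : Matrix (Fin (m + 1) × Mon m (N - q)) (Mon m N)
    (MvPolynomial (Fin (p + 1) × Mon m q) ℂ) := B.map C
  let MB : Matrix (Mon m N) (Mon m N) (MvPolynomial (Fin (p + 1) × Mon m q) ℂ) := M * Bc
  have hdet : ∀ F : Form m p q, eval F MB.det = (mac hp F N * B).det := by
    intro F
    rw [RingHom.map_det, RingHom.mapMatrix_apply]
    have h1 : MB.map (eval F) = M.map (eval F) * Bc.map (eval F) := Matrix.map_mul
    have h2 : Bc.map (eval F) = B := by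
      ext x α
      simp [Bc]
    rw [h1, h2, hM]
  refine ⟨MB.det, ?_, ?_⟩
  · -- the forms `y i ^ q`
    intro h0
    let F₀ : Form m p q := fun x => if ∃ i : Fin (m + 1), (i : ℕ) = x.1 ∧
      (x.2 : Fin (m + 1) → ℕ) = Pi.single i q then 1 else 0
    have h1 := hdet F₀
    rw [h0, map_zero] at h1
    have hF₀ : ∀ (i : Fin (m + 1)) (a : Mon m q), F₀ (Fin.castLE (by omega) i, a) =
        if (a : Fin (m + 1) → ℕ) = Pi.single i q then 1 else 0 := by
      intro i a
      simp only [F₀]
      congr 1
      rw [eq_iff_iff]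
      constructor
      · rintro ⟨i', hi', ha⟩
        have : i' = i := Fin.ext (by simpa using hi')
        rw [← this]
        exact ha
      · intro ha
        exact ⟨i, by simp, ha⟩
    have hmac : ∀ (α : Mon m N) (x : Fin (m + 1) × Mon m (N - q)), mac hp F₀ N α x =
        if Pi.single x.1 q + (x.2 : Fin (m + 1) → ℕ) = (α : Fin (m + 1) → ℕ) then 1 else 0 := by
      intro α x
      unfold mac
      have hmem : (Pi.single x.1 q : Fin (m + 1) → ℕ) ∈
          Finset.piAntidiag (Finset.univ : Finset (Fin (m + 1))) q := by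
        rw [Finset.mem_piAntidiag]
        refine ⟨?_, fun _ _ => Finset.mem_univ _⟩
        rw [Finset.sum_pi_single']
        simp
      rw [Finset.sum_eq_single (⟨_, hmem⟩ : Mon m q)]
      · rw [hF₀]
        simp
      · intro a _ ha
        rw [hF₀, if_neg (fun h => ha (Subtype.ext h))]
        simp
      · intro h
        exact absurd (Finset.mem_univ _) h
    have h2 : mac hp F₀ N * B = 1 := by
      ext α α'
      rw [Matrix.mul_apply]
      simp only [hmac, B]
      -- the unique index
      have hmem : (fun j => (α' : Fin (m + 1) → ℕ) j - (Pi.single (ι α') q : Fin (m + 1) → ℕ) j) ∈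
          Finset.piAntidiag (Finset.univ : Finset (Fin (m + 1))) (N - q) := by
        rw [Finset.mem_piAntidiag]
        refine ⟨?_, fun _ _ => Finset.mem_univ _⟩
        have h3 : ∑ j, (α' : Fin (m + 1) → ℕ) j = N := (Finset.mem_piAntidiag.1 α'.2).1
        rw [Finset.sum_tsub_distrib, h3, Finset.sum_pi_single']
        · simp
        · intro j _
          by_cases hj : j = ι α'
          · rw [hj, Pi.single_eq_same]
            exact hι α'
          · rw [Pi.single_eq_of_ne hj]
            exact Nat.zero_le _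
      have hadd : Pi.single (ι α') q + (fun j => (α' : Fin (m + 1) → ℕ) j -
          (Pi.single (ι α') q : Fin (m + 1) → ℕ) j) = (α' : Fin (m + 1) → ℕ) := by
        funext j
        simp only [Pi.add_apply]
        by_cases hj : j = ι α'
        · rw [hj, Pi.single_eq_same]
          have := hι α'
          omega
        · rw [Pi.single_eq_of_ne hj]
          omega
      rw [Finset.sum_eq_single ((ι α', ⟨_, hmem⟩) : Fin (m + 1) × Mon m (N - q))]
      · rw [if_pos (⟨rfl, hadd⟩ : _ ∧ _), mul_one]
        change (if Pi.single (ι α') q + (fun j => (α' : Fin (m + 1) → ℕ) j -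
          (Pi.single (ι α') q : Fin (m + 1) → ℕ) j) = (α : Fin (m + 1) → ℕ) then (1 : ℂ) else 0) = _
        rw [hadd, Matrix.one_apply]
        by_cases h4 : α = α'
        · rw [h4, if_pos rfl, if_pos rfl]
        · rw [if_neg (fun h => h4 (Subtype.ext h.symm)), if_neg h4]
      · rintro ⟨i, β⟩ _ hx
        by_cases h4 : i = ι α' ∧ Pi.single i q + (β : Fin (m + 1) → ℕ) = (α' : Fin (m + 1) → ℕ)
        · exfalso
          obtain ⟨h5, h6⟩ := h4
          apply hx
          subst h5
          refine Prod.ext rfl (Subtype.ext ?_)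
          funext j
          have h7 := congrFun h6 j
          simp only [Pi.add_apply] at h7
          change (β : Fin (m + 1) → ℕ) j = (α' : Fin (m + 1) → ℕ) j - (Pi.single (ι α') q : Fin (m + 1) → ℕ) j
          omega
        · rw [if_neg h4, mul_zero]
      · intro h
        exact absurd (Finset.mem_univ _) h
    rw [h2, Matrix.det_one] at h1
    exact zero_ne_one h1
  · intro F hF K _ _ y hy
    by_contra hc
    push Not at hc
    rw [hdet] at hF
    -- the row vector of the monomials is killed by the matrix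
    have h1 : (fun α : Mon m N => mval y α) ᵥ* ((mac hp F N * B).map (algebraMap ℂ K)) = 0 := by
      rw [Matrix.map_mul, ← Matrix.vecMul_vecMul]
      have h2 : (fun α : Mon m N => mval y α) ᵥ* ((mac hp F N).map (algebraMap ℂ K)) = 0 := by
        ext x
        rw [Matrix.vecMul, dotProduct]
        simp only [Matrix.map_apply]
        rw [mac_mul hp F hN y x, hc, mul_zero]
        rfl
      rw [h2, Matrix.zero_vecMul]
    have h2 : ((mac hp F N * B).map (algebraMap ℂ K)).det ≠ 0 := by
      have h3 := RingHom.map_det (algebraMap ℂ K) (mac hp F N * B)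
      rw [RingHom.mapMatrix_apply] at h3
      rw [← h3]
      exact (map_ne_zero (algebraMap ℂ K)).2 hF
    have h3 := Matrix.eq_zero_of_vecMul_eq_zero h2 h1
    apply hy
    funext j
    have hmem : (Pi.single j N : Fin (m + 1) → ℕ) ∈
        Finset.piAntidiag (Finset.univ : Finset (Fin (m + 1))) N := by
      rw [Finset.mem_piAntidiag]
      refine ⟨?_, fun _ _ => Finset.mem_univ _⟩
      rw [Finset.sum_pi_single']
      simp
    have h4 := congrFun h3 (⟨_, hmem⟩ : Mon m N)
    unfold mval at h4
    rw [Finset.prod_eq_single j] at h4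
    · simp only [Pi.single_eq_same, Pi.zero_apply] at h4
      exact eq_zero_of_pow_eq_zero h4
    · intro j' _ hj'
      simp only [Pi.single_eq_of_ne hj', pow_zero]
    · intro h
      exact absurd (Finset.mem_univ _) h

end

end Pool.Agent.X324.LE
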