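import Pool.Agent.X324.LE.Gen

/-!
# The counterexample: hypersurfaces in `P^1 × P^m` which are finite over `P^m`
-/

set_option autoImplicit false

namespace Pool.Agent.X324.LE

open FF MvPolynomial

section morphisms

variable {m : ℕ} (X : Closed m)

/-- the form `s i` -/
def sForm (m : ℕ) (i : Fin 2) : Form m 1 0 := fun x => if x.1 = i then 1 else 0

/-- the form `y j` -/
def yForm (m : ℕ) (j : Fin (m + 1)) : Form m 0 1 := fun x =>
  if (x.2 : Fin (m + 1) → ℕ) = Pi.single j 1 then 1 else 0

theorem sForm_eval {K : Type} [Field K] [Algebra ℂ K] (i : Fin 2) (s : Fin 2 → K)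
    (y : Fin (m + 1) → K) : (sForm m i).eval s y = s i := by
  classical
  have h0 : ∀ a : Mon m 0, (a : Fin (m + 1) → ℕ) = 0 := by
    intro a
    have h1 := (Finset.mem_piAntidiag.1 a.2).1
    funext j
    exact (Finset.sum_eq_zero_iff.1 h1) j (Finset.mem_univ j)
  have hmem : (0 : Fin (m + 1) → ℕ) ∈ Finset.piAntidiag (Finset.univ : Finset (Fin (m + 1))) 0 := by
    rw [Finset.mem_piAntidiag]
    exact ⟨by simp, fun _ _ => Finset.mem_univ _⟩
  unfold Form.eval sForm
  rw [Finset.sum_eq_single ((i, ⟨0, hmem⟩) : Fin (1 + 1) × Mon m 0)]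
  · fin_cases i <;> simp
  · rintro ⟨i', a⟩ _ h
    have h2 : i' ≠ i := by
      rintro rfl
      exact h (Prod.ext rfl (Subtype.ext (h0 a)))
    rw [if_neg h2, map_zero, zero_mul]
  · intro h
    exact absurd (Finset.mem_univ _) h

theorem yForm_eval {K : Type} [Field K] [Algebra ℂ K] (j : Fin (m + 1)) (s : Fin 2 → K)
    (y : Fin (m + 1) → K) : (yForm m j).eval s y = y j := by
  classical
  have hmem : (Pi.single j 1 : Fin (m + 1) → ℕ) ∈
      Finset.piAntidiag (Finset.univ : Finset (Fin (m + 1))) 1 := by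
    rw [Finset.mem_piAntidiag]
    refine ⟨?_, fun _ _ => Finset.mem_univ _⟩
    rw [Finset.sum_pi_single']
    simp
  unfold Form.eval yForm
  rw [Finset.sum_eq_single ((0, ⟨_, hmem⟩) : Fin (0 + 1) × Mon m 1)]
  · rw [if_pos rfl, map_one, one_mul]
    rw [Finset.prod_eq_single j]
    · simp
    · intro j' _ hj'
      simp [Pi.single_eq_of_ne hj']
    · intro h
      exact absurd (Finset.mem_univ _) h
  · rintro ⟨i', a⟩ _ h
    have h2 : ¬ (a : Fin (m + 1) → ℕ) = Pi.single j 1 := by
      intro h3
      exact h (Prod.ext (Fin.ext (by have := i'.2; change (i' : ℕ) = 0; omega)) (Subtype.ext h3))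
    rw [if_neg h2, map_zero, zero_mul]
  · intro h
    exact absurd (Finset.mem_univ _) h

/-- the projection to `P^1` -/
def prOne : Mor X 1 where
  r := 1
  p := fun _ => 1
  q := fun _ => 0
  g := fun _ i => sForm m i
  cover s y h := by
    obtain ⟨i, hi⟩ := Function.ne_iff.1 h.1
    exact ⟨0, i, by rw [sForm_eval]; exact hi⟩
  compat s y h l l' i j := by
    simp only [sForm_eval]
    ring

/-- the projection to `P^m` -/
def prTwo : Mor X m where
  r := 1
  p := fun _ => 0
  q := fun _ => 1
  g := fun _ j => yForm m j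
  cover s y h := by
    obtain ⟨i, hi⟩ := Function.ne_iff.1 h.2.1
    exact ⟨0, i, by rw [yForm_eval]; exact hi⟩
  compat s y h l l' i j := by
    simp only [yForm_eval]
    ring

theorem prOne_degree (C : Curve X) : (prOne X).degree C = degree C.s := by
  have h1 : ∀ l, (fun i => ((prOne X).g l i).eval C.s C.y) = C.s := by
    intro l
    funext i
    exact sForm_eval i C.s C.y
  have h2 : ∃ l, (fun i => ((prOne X).g l i).eval C.s C.y) ≠ 0 := by
    refine ⟨(⟨0, Nat.one_pos⟩ : Fin (prOne X).r), ?_⟩
    rw [h1]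
    exact C.isPoint.1
  unfold Mor.degree
  rw [dif_pos h2, h1]

theorem prTwo_degree (C : Curve X) : (prTwo X).degree C = degree C.y := by
  have h1 : ∀ l, (fun i => ((prTwo X).g l i).eval C.s C.y) = C.y := by
    intro l
    funext i
    exact yForm_eval i C.s C.y
  have h2 : ∃ l, (fun i => ((prTwo X).g l i).eval C.s C.y) ≠ 0 := by
    refine ⟨(⟨0, Nat.one_pos⟩ : Fin (prTwo X).r), ?_⟩
    rw [h1]
    exact C.isPoint.2.1
  unfold Mor.degree
  rw [dif_pos h2, h1]

/-- the intersection number with `q H_2 - H_1` -/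
noncomputable def lin (q : ℕ) : NOne X →ₗ[ℝ] ℝ :=
  Submodule.liftQ _ ((q : ℝ) • Finsupp.linearCombination ℝ (fun C : Curve X =>
    ((prTwo X).degree C : ℝ)) - Finsupp.linearCombination ℝ (fun C : Curve X =>
    ((prOne X).degree C : ℝ))) (by
      intro z hz
      simp only [numZero, Submodule.mem_iInf, LinearMap.mem_ker] at hz
      rw [LinearMap.mem_ker, LinearMap.sub_apply, LinearMap.smul_apply, hz m (prTwo X),
        hz 1 (prOne X), smul_zero, sub_zero])

theorem lin_cls (q : ℕ) (C : Curve X) :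
    lin X q (cls C) = q * (degree C.y : ℝ) - (degree C.s : ℝ) := by
  unfold lin cls
  rw [Submodule.liftQ_apply, LinearMap.sub_apply, LinearMap.smul_apply,
    Finsupp.linearCombination_single, Finsupp.linearCombination_single, prOne_degree, prTwo_degree]
  simp

theorem push_cls (C : Curve X) : push X (cls C) = cls C.incl := by
  unfold push cls
  rw [Submodule.mapQ_apply, Finsupp.lmapDomain_apply, Finsupp.mapDomain_single]

end morphisms

section line

theorem isFF_ratFunc : IsFF ℂ (RatFunc ℂ) := by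
  refine IsFF.of_finite (f := (RatFunc.X : RatFunc ℂ)) RatFunc.transcendental_X ?_
  rw [RatFunc.adjoin_X]
  exact Module.Finite.of_surjective
    (Algebra.linearMap (⊤ : IntermediateField ℂ (RatFunc ℂ)) (RatFunc ℂ))
    fun z => ⟨⟨z, trivial⟩, rfl⟩

/-- the coordinates of the generic point of the fibre `P^1` -/
noncomputable def sLine : Fin 2 → RatFunc ℂ := ![1, RatFunc.X]

/-- the coordinates of the point of `P^m` -/
noncomputable def yLine (m : ℕ) : Fin (m + 1) → RatFunc ℂ := Pi.single 0 1

/-- the curve `P^1 × {y}`, `y = (1 : 0 : … : 0)` -/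
noncomputable def line (m : ℕ) : Curve (whole m) :=
  letI := isFF_ratFunc
  { K := RatFunc ℂ
    s := sLine
    y := yLine m
    isPoint := by
      refine ⟨fun h => ?_, fun h => ?_, fun _ hf => absurd hf (Set.notMem_empty _)⟩
      · exact one_ne_zero (congrFun h 0 : (1 : RatFunc ℂ) = 0)
      · have := congrFun h 0
        rw [yLine, Pi.single_eq_same] at this
        exact one_ne_zero (this : (1 : RatFunc ℂ) = 0)
    gen := by
      rw [eq_top_iff, ← RatFunc.adjoin_X]
      refine IntermediateField.adjoin.mono _ _ _ ?_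
      intro z hz
      rw [Set.mem_singleton_iff] at hz
      left
      exact ⟨1, 0, by rw [hz]; simp [sLine]⟩ }

theorem degree_yLine (m : ℕ) : degree (yLine m) = 0 := by
  have := isFF_ratFunc
  unfold degree
  have h1 : ∀ P : Place ℂ (RatFunc ℂ), minOrd P (yLine m) = 0 := by
    intro P
    have h2 : yLine m ≠ 0 := by
      intro h
      have := congrFun h 0
      rw [yLine, Pi.single_eq_same] at this
      exact one_ne_zero (this : (1 : RatFunc ℂ) = 0)
    obtain ⟨i, hi, hi2⟩ := exists_minOrd P h2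
    have h3 : i = 0 := by
      by_contra h
      exact hi (by rw [yLine, Pi.single_eq_of_ne h])
    rw [← hi2, h3, yLine, Pi.single_eq_same, P.ord_one]
  simp only [h1, finsum_zero, neg_zero]

theorem degree_sLine : 0 < degree sLine := by
  have hff := isFF_ratFunc
  obtain ⟨S, hS, hS2⟩ := poles (k := ℂ) (f := (RatFunc.X : RatFunc ℂ)) RatFunc.transcendental_X
  have hfin := IsFF.finite (k := ℂ) (K := RatFunc ℂ) (f := (RatFunc.X : RatFunc ℂ))
    RatFunc.transcendental_X
  have h1 : 0 < Module.finrank (IntermediateField.adjoin ℂ {(RatFunc.X : RatFunc ℂ)})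
    (RatFunc ℂ) := Module.finrank_pos
  have hne : S.Nonempty := by
    rw [Finset.nonempty_iff_ne_empty]
    rintro rfl
    rw [Finset.sum_empty] at hS2
    omega
  obtain ⟨P, hP⟩ := hne
  have hP2 := (hS P).1 hP
  have hle : ∀ P : Place ℂ (RatFunc ℂ), minOrd P sLine ≤ 0 := by
    intro P
    have := minOrd_le P sLine 0 (by simp [sLine])
    simpa [sLine, P.ord_one] using this
  have hlt : minOrd P sLine < 0 := by
    have := minOrd_le P sLine 1 (by simp [sLine, RatFunc.X_ne_zero])
    have h3 : P.ord (sLine 1) = P.ord RatFunc.X := by simp [sLine]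
    rw [h3] at this
    exact this.trans_lt hP2
  have h4 : 0 < ∑ᶠ P : Place ℂ (RatFunc ℂ), (-minOrd P sLine) := by
    refine finsum_pos (fun P => ?_) ⟨P, ?_⟩ ?_
    · have := hle P
      linarith
    · linarith
    · refine (minOrd_finite sLine).subset ?_
      intro P hP
      rw [Function.mem_support] at hP ⊢
      intro h
      exact hP (by rw [h, neg_zero])
  rw [finsum_neg_distrib] at h4
  exact h4

end line

/-- the classes of curves are effective -/
theorem cls_mem {m : ℕ} {X : Closed m} (C : Curve X) : cls C ∈ Eff X := fun _ h => h C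

/-- Suppose the coefficients of the powers of `s` in `F` have no common zeros. Then `i_*` does not
map `Eff_1(X)` onto `Eff_1(P^1 × P^m)`. -/
theorem not_induces {m p q : ℕ} (F : Form m p q)
    (hF : ∀ (K : Type) [Field K] [Algebra ℂ K] (y : Fin (m + 1) → K), y ≠ 0 →
      ∃ i, cval F y i ≠ 0) : ¬ InducesIso (hypersurface F) := by
  rintro ⟨-, h⟩
  have h1 : cls (line m) ∈ push (hypersurface F) '' Eff (hypersurface F) := by
    rw [h]
    exact cls_mem _
  obtain ⟨x, hx, hx2⟩ := h1
  have h2 : 0 ≤ ((lin (whole m) q).comp (push (hypersurface F))) x := by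
    refine hx _ fun C => ?_
    rw [LinearMap.comp_apply, push_cls, lin_cls]
    change 0 ≤ (q : ℝ) * (degree C.y : ℝ) - (degree C.s : ℝ)
    have h3 : degree C.s ≤ q * degree C.y := by
      refine degree_le (p := p) C.s C.y C.isPoint.1
        (fun i => if h : i < p + 1 then cval F C.y ⟨i, h⟩ else 0) ?_ ?_ ?_
      · intro P i hi
        rw [dif_pos (Nat.lt_succ_of_le hi)]
        exact ord_form_ge P (fun a => F (⟨i, Nat.lt_succ_of_le hi⟩, a)) C.y
      · obtain ⟨i, hi⟩ := hF C.K C.y C.isPoint.2.1
        exact ⟨i, Nat.lt_succ_iff.1 i.2, by rw [dif_pos i.2]; exact hi⟩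
      · have h4 := C.isPoint.2.2 ⟨(p, q), F⟩ rfl
        rw [eval_eq] at h4
        rw [Finset.sum_range, ← h4]
        refine Finset.sum_congr rfl fun i _ => ?_
        rw [dif_pos i.2]
    have h5 : (degree C.s : ℝ) ≤ q * (degree C.y : ℝ) := by exact_mod_cast h3
    linarith
  rw [LinearMap.comp_apply, hx2, lin_cls] at h2
  have h6 : (degree (line m).y : ℝ) = 0 := by
    have := degree_yLine m
    exact_mod_cast this
  have h7 : (0 : ℝ) < (degree (line m).s : ℝ) := by
    have := degree_sLine
    exact_mod_cast this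
  rw [h6, mul_zero, zero_sub] at h2
  linarith

/-- a common point where countably many polynomials do not vanish -/
theorem exists_point : ∀ (s : ℕ) (r : ℕ → MvPolynomial (Fin s) ℂ),
    (∀ m, r m ≠ 0) → ∃ b : Fin s → ℂ, ∀ m, eval b (r m) ≠ 0 := by
  intro s
  induction s with
  | zero =>
    intro r h
    refine ⟨fun i => i.elim0, fun m hm => h m ?_⟩
    rw [MvPolynomial.eq_C_of_isEmpty (r m)] at hm ⊢
    rw [eval_C] at hm
    rw [hm, C_0]
  | succ s ih =>
    intro r h
    have h1 : ∀ m, (finSuccEquiv ℂ s (r m)).leadingCoeff ≠ 0 := by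
      intro m hm
      rw [Polynomial.leadingCoeff_eq_zero] at hm
      apply h m
      exact (map_eq_zero_iff _ (finSuccEquiv ℂ s).injective).1 hm
    obtain ⟨b, hb⟩ := ih _ h1
    have h2 : ∀ m, Polynomial.map (eval b) (finSuccEquiv ℂ s (r m)) ≠ 0 := by
      intro m hm
      apply hb m
      have := congrArg (fun q => Polynomial.coeff q (finSuccEquiv ℂ s (r m)).natDegree) hm
      simpa using this
    have h3 : (⋃ m, {x : ℂ | (Polynomial.map (eval b) (finSuccEquiv ℂ s (r m))).IsRoot x}).Countable := by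
      refine Set.countable_iUnion fun m => ?_
      exact (Polynomial.finite_setOfPred_isRoot (h2 m)).countable
    obtain ⟨x, hx⟩ : ∃ x, x ∉ (⋃ m, {x : ℂ | (Polynomial.map (eval b) (finSuccEquiv ℂ s (r m))).IsRoot x}) := by
      by_contra hc
      push Not at hc
      have h4 : Countable ℂ := Set.countable_univ_iff.1 (h3.mono fun x _ => hc x)
      exact not_countable_complex (Set.countable_univ_iff.2 h4)
    refine ⟨Fin.cons x b, fun m hm => hx ?_⟩
    rw [Set.mem_iUnion]
    refine ⟨m, ?_⟩
    rw [eval_eq_eval_mv_eval'] at hm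
    exact hm

theorem exists_point' {σ : Type} [Fintype σ] (r : ℕ → MvPolynomial σ ℂ) (h : ∀ m, r m ≠ 0) :
    ∃ b : σ → ℂ, ∀ m, eval b (r m) ≠ 0 := by
  classical
  let e := Fintype.equivFin σ
  obtain ⟨b, hb⟩ := exists_point (Fintype.card σ) (fun m => rename e (r m)) fun m hm =>
    h m ((map_eq_zero_iff _ (rename_injective e e.injective)).1 hm)
  refine ⟨b ∘ e, fun m => ?_⟩
  have := hb m
  rwa [eval_rename] at this

/-- a very general property and one which holds on a nonempty open set hold simultaneously -/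
theorem VeryGeneral.exists_and {m p q : ℕ} {P : Form m p q → Prop} (h : VeryGeneral P)
    {Ψ : MvPolynomial (Fin (p + 1) × Mon m q) ℂ} (hΨ : Ψ ≠ 0) :
    ∃ F : Form m p q, P F ∧ eval F Ψ ≠ 0 := by
  obtain ⟨Φ, hΦ, hP⟩ := h
  obtain ⟨F, hF⟩ := exists_point' (fun k => Φ k * Ψ) fun k => mul_ne_zero (hΦ k) hΨ
  refine ⟨F, hP F fun k hk => ?_, fun hk => ?_⟩
  · exact hF k (by rw [map_mul, hk, zero_mul])
  · exact hF 0 (by rw [map_mul, hk, mul_zero])

end Pool.Agent.X324.LE
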