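import Pool.Agent.X324.LE.Defs

/-!
# The degree inequality for curves on a hypersurface of bidegree `(p, q)`
-/

set_option autoImplicit false

namespace Pool.Agent.X324.LE

open FF

section

variable {K : Type} [Field K] [Algebra ℂ K]

theorem minOrd_le {n : ℕ} (P : Place ℂ K) (z : Fin n → K) (i : Fin n) (hi : z i ≠ 0) :
    minOrd P z ≤ P.ord (z i) := by
  refine csInf_le ?_ ⟨i, hi, rfl⟩
  refine (Set.Finite.bddBelow ?_)
  refine (Set.finite_range fun i => P.ord (z i)).subset ?_
  rintro k ⟨i, -, rfl⟩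
  exact ⟨i, rfl⟩

theorem exists_minOrd {n : ℕ} (P : Place ℂ K) {z : Fin n → K} (hz : z ≠ 0) :
    ∃ i, z i ≠ 0 ∧ P.ord (z i) = minOrd P z := by
  obtain ⟨i, hi⟩ := Function.ne_iff.1 hz
  have h1 : {k : ℤ | ∃ i, z i ≠ 0 ∧ P.ord (z i) = k}.Nonempty := ⟨_, i, hi, rfl⟩
  have h2 : BddBelow {k : ℤ | ∃ i, z i ≠ 0 ∧ P.ord (z i) = k} := by
    refine (Set.Finite.bddBelow ?_)
    refine (Set.finite_range fun i => P.ord (z i)).subset ?_
    rintro k ⟨i, -, rfl⟩
    exact ⟨i, rfl⟩
  exact Int.csInf_mem h1 h2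

/-- the order of a sum -/
theorem ord_sum_ge (P : Place ℂ K) {ι : Type*} (S : Finset ι) (f : ι → K) (b : ℤ)
    (h : ∀ i ∈ S, f i = 0 ∨ b ≤ P.ord (f i)) :
    ∑ i ∈ S, f i = 0 ∨ b ≤ P.ord (∑ i ∈ S, f i) := by
  classical
  induction S using Finset.induction with
  | empty => left; simp
  | insert a S ha ih =>
    rw [Finset.sum_insert ha]
    have h1 := h a (Finset.mem_insert_self a S)
    have h2 := ih fun i hi => h i (Finset.mem_insert_of_mem hi)
    by_cases h3 : f a + ∑ i ∈ S, f i = 0
    · exact Or.inl h3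
    right
    rcases h1 with h1 | h1
    · rw [h1, zero_add] at h3 ⊢
      exact h2.resolve_left h3
    rcases h2 with h2 | h2
    · rw [h2, add_zero] at h3 ⊢
      exact h1
    by_cases h4 : f a = 0
    · rw [h4, zero_add]
      exact h2
    by_cases h5 : ∑ i ∈ S, f i = 0
    · rw [h5, add_zero]
      exact h1
    exact (le_min h1 h2).trans (P.ord_add h4 h5 h3)

theorem ord_prod (P : Place ℂ K) {ι : Type*} (S : Finset ι) (f : ι → K)
    (h : ∀ i ∈ S, f i ≠ 0) : P.ord (∏ i ∈ S, f i) = ∑ i ∈ S, P.ord (f i) := by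
  classical
  induction S using Finset.induction with
  | empty => simp [P.ord_one]
  | insert a S ha ih =>
    rw [Finset.prod_insert ha, Finset.sum_insert ha, P.ord_mul (h a (Finset.mem_insert_self a S))
      (Finset.prod_ne_zero_iff.2 fun i hi => h i (Finset.mem_insert_of_mem hi)),
      ih fun i hi => h i (Finset.mem_insert_of_mem hi)]

/-- the order of a monomial -/
theorem ord_monomial_ge (P : Place ℂ K) {m q : ℕ} (y : Fin (m + 1) → K) (a : Mon m q) :
    ∏ j, y j ^ (a : Fin (m + 1) → ℕ) j = 0 ∨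
      q * minOrd P y ≤ P.ord (∏ j, y j ^ (a : Fin (m + 1) → ℕ) j) := by
  by_cases h : ∏ j, y j ^ (a : Fin (m + 1) → ℕ) j = 0
  · exact Or.inl h
  right
  rw [Finset.prod_eq_zero_iff] at h
  push Not at h
  rw [ord_prod P _ _ fun j hj => h j hj]
  have h1 : ∑ j, (a : Fin (m + 1) → ℕ) j = q := (Finset.mem_piAntidiag.1 a.2).1
  have h2 : (q : ℤ) * minOrd P y = ∑ j, ((a : Fin (m + 1) → ℕ) j : ℤ) * minOrd P y := by
    have h3 := congrArg (Nat.cast (R := ℤ)) h1
    push_cast at h3
    rw [← Finset.sum_mul, h3]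
  rw [h2]
  refine Finset.sum_le_sum fun j _ => ?_
  rw [P.ord_pow]
  by_cases h3 : (a : Fin (m + 1) → ℕ) j = 0
  · rw [h3]
    simp
  · have h4 : y j ≠ 0 := fun h5 => h j (Finset.mem_univ j) (by rw [h5, zero_pow h3])
    exact mul_le_mul_of_nonneg_left (minOrd_le P y j h4) (by positivity)

/-- a form in `y`, with constant coefficients -/
theorem ord_form_ge (P : Place ℂ K) {m q : ℕ} (c : Mon m q → ℂ) (y : Fin (m + 1) → K) :
    ∑ a : Mon m q, algebraMap ℂ K (c a) * ∏ j, y j ^ (a : Fin (m + 1) → ℕ) j = 0 ∨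
      q * minOrd P y ≤
        P.ord (∑ a : Mon m q, algebraMap ℂ K (c a) * ∏ j, y j ^ (a : Fin (m + 1) → ℕ) j) := by
  refine ord_sum_ge P _ _ _ fun a _ => ?_
  by_cases h : c a = 0
  · left
    rw [h, map_zero, zero_mul]
  rcases ord_monomial_ge P y a with h1 | h1
  · left
    rw [h1, mul_zero]
  · by_cases h2 : ∏ j, y j ^ (a : Fin (m + 1) → ℕ) j = 0
    · left
      rw [h2, mul_zero]
    right
    rw [P.ord_mul ((map_ne_zero (algebraMap ℂ K)).2 h) h2, P.ord_const h, zero_add]
    exact h1

end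

section

variable {K : Type} [Field K] [Algebra ℂ K] [IsFF ℂ K]

theorem deg_one (P : Place ℂ K) : P.deg = 1 := by
  have h1 : Function.Bijective (algebraMap ℂ P.RF) :=
    IsAlgClosed.algebraMap_bijective_of_isIntegral
  unfold Place.deg
  exact (finrank_eq_one_iff_of_nonzero' (1 : P.RF) one_ne_zero).mpr fun v => by
    obtain ⟨c, hc⟩ := h1.2 v
    exact ⟨c, by rw [Algebra.smul_def, mul_one, hc]⟩

theorem finsum_ord (f : K) : ∑ᶠ P : Place ℂ K, P.ord f = 0 := by
  have h1 := ddeg_divisor (k := ℂ) f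
  unfold ddeg at h1
  rw [← h1, Finsupp.sum, finsum_eq_sum_of_support_subset (s := (divisor ℂ f).support)]
  · refine Finset.sum_congr rfl fun P _ => ?_
    rw [deg_one P]
    simp [divisor_apply]
  · intro P hP
    rw [Function.mem_support] at hP
    rw [Finset.mem_coe, Finsupp.mem_support_iff, divisor_apply]
    exact hP

theorem minOrd_finite {n : ℕ} (z : Fin n → K) : (Function.support fun P : Place ℂ K =>
    minOrd P z).Finite := by
  by_cases hz : z = 0
  · convert Set.finite_empty
    ext P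
    simp only [Function.mem_support, Set.mem_empty_iff_false, iff_false, not_not]
    unfold minOrd
    have : {k : ℤ | ∃ i, z i ≠ 0 ∧ P.ord (z i) = k} = ∅ := by
      ext k
      simp [hz]
    rw [this, Int.csInf_empty]
  refine ((Set.finite_iUnion fun i : Fin n => finite_support (k := ℂ) (z i))).subset ?_
  intro P hP
  rw [Function.mem_support] at hP
  obtain ⟨i, -, hi⟩ := exists_minOrd P hz
  rw [Set.mem_iUnion]
  exact ⟨i, by rw [Set.mem_ofPred_eq, hi]; exact hP⟩

/-- if `f` is a nonzero section of `a H_2 - H_1` then the degrees satisfy `deg s ≤ a deg y` -/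
theorem degree_le_of_section {n n' : ℕ} (s : Fin n → K) (y : Fin n' → K) (a : ℕ) (f : K)
    (h : ∀ P : Place ℂ K, a * minOrd P y - minOrd P s ≤ P.ord f) :
    degree s ≤ a * degree y := by
  have h1 : ∑ᶠ P : Place ℂ K, (a * minOrd P y - minOrd P s) ≤ ∑ᶠ P : Place ℂ K, P.ord f := by
    refine finsum_le_finsum' ?_ (finite_support (k := ℂ) f) h
    refine Set.Finite.subset ((minOrd_finite y).union (minOrd_finite s)) ?_
    intro P hP
    rw [Function.mem_support] at hP
    by_contra hc
    rw [Set.mem_union, not_or, Function.mem_support, Function.mem_support, not_not, not_not] at hc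
    exact hP (by rw [hc.1, hc.2]; simp)
  have h2 : ∑ᶠ P : Place ℂ K, ((a : ℤ) * minOrd P y - minOrd P s) =
      a * (∑ᶠ P : Place ℂ K, minOrd P y) - ∑ᶠ P : Place ℂ K, minOrd P s := by
    rw [finsum_sub_distrib _ (minOrd_finite s), mul_finsum]
    refine (minOrd_finite y).subset ?_
    intro P hP
    rw [Function.mem_support] at hP ⊢
    intro h3
    exact hP (by rw [h3, mul_zero])
  rw [h2, finsum_ord] at h1
  unfold degree
  linarith

theorem degree_nonneg {n : ℕ} (z : Fin n → K) : 0 ≤ degree z := by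
  by_cases hz : z = 0
  · have h1 : ∀ P : Place ℂ K, minOrd P z = 0 := by
      intro P
      unfold minOrd
      have : {k : ℤ | ∃ i, z i ≠ 0 ∧ P.ord (z i) = k} = ∅ := by
        ext k
        simp [hz]
      rw [this, Int.csInf_empty]
    unfold degree
    simp only [h1, finsum_zero, neg_zero, le_refl]
  obtain ⟨i, hi⟩ := Function.ne_iff.1 hz
  have h1 : ∑ᶠ P : Place ℂ K, minOrd P z ≤ ∑ᶠ P : Place ℂ K, P.ord (z i) :=
    finsum_le_finsum' (minOrd_finite z) (finite_support (k := ℂ) (z i))
      fun P => minOrd_le P z i hi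
  rw [finsum_ord] at h1
  unfold degree
  linarith

/-- **The degree inequality.** If `(s 0 : s 1)` is a zero of the nonzero form
`∑ s 0 ^ (p - i) * s 1 ^ i * c i` whose coefficients `c i` have order at least `q * minOrd y` at all
places, then `deg s ≤ q * deg y`. -/
theorem degree_le {n' p q : ℕ} (s : Fin 2 → K) (y : Fin n' → K) (hs : s ≠ 0)
    (c : ℕ → K) (hc : ∀ (P : Place ℂ K) (i : ℕ), i ≤ p → c i = 0 ∨ q * minOrd P y ≤ P.ord (c i))
    (h0 : ∃ i ≤ p, c i ≠ 0)
    (heq : ∑ i ∈ Finset.range (p + 1), s 0 ^ (p - i) * s 1 ^ i * c i = 0) :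
    degree s ≤ q * degree y := by
  -- the cases where one of the coordinates is zero
  by_cases hs0 : s 0 = 0
  · have hs1 : s 1 ≠ 0 := by
      intro h
      apply hs
      funext i
      fin_cases i
      · exact hs0
      · exact h
    have h1 : degree s = 0 := by
      unfold degree
      have : ∀ P : Place ℂ K, minOrd P s = P.ord (s 1) := by
        intro P
        obtain ⟨i, hi, hi2⟩ := exists_minOrd P hs
        fin_cases i
        · exact absurd hs0 hi
        · exact hi2.symm
      rw [finsum_congr this, finsum_ord, neg_zero]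
    rw [h1]
    exact mul_nonneg (by positivity) (degree_nonneg y)
  by_cases hs1 : s 1 = 0
  · have h1 : degree s = 0 := by
      unfold degree
      have : ∀ P : Place ℂ K, minOrd P s = P.ord (s 0) := by
        intro P
        obtain ⟨i, hi, hi2⟩ := exists_minOrd P hs
        fin_cases i
        · exact hi2.symm
        · exact absurd hs1 hi
      rw [finsum_congr this, finsum_ord, neg_zero]
    rw [h1]
    exact mul_nonneg (by positivity) (degree_nonneg y)
  -- the smallest index with `c j ≠ 0`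
  classical
  obtain ⟨j, ⟨hj, hcj⟩, hmin⟩ : ∃ j, (j ≤ p ∧ c j ≠ 0) ∧ ∀ i < j, ¬ (i ≤ p ∧ c i ≠ 0) :=
    ⟨Nat.find h0, Nat.find_spec h0, fun i hi => Nat.find_min h0 hi⟩
  -- the section `c j / s 1`
  have hz : c j / s 1 ≠ 0 := div_ne_zero hcj hs1
  refine degree_le_of_section s y q (c j / s 1) fun P => ?_
  rw [P.ord_div hcj hs1]
  rcases le_total (P.ord (s 1)) (P.ord (s 0)) with hle | hle
  · have h1 : minOrd P s = P.ord (s 1) := by
      refine le_antisymm (minOrd_le P s 1 hs1) ?_
      obtain ⟨i, hi, hi2⟩ := exists_minOrd P hs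
      fin_cases i
      · exact hi2 ▸ hle
      · exact hi2.symm ▸ le_rfl
    have h2 := (hc P j hj).resolve_left hcj
    rw [h1]
    linarith
  · have h1 : minOrd P s = P.ord (s 0) := by
      refine le_antisymm (minOrd_le P s 0 hs0) ?_
      obtain ⟨i, hi, hi2⟩ := exists_minOrd P hs
      fin_cases i
      · exact hi2.symm ▸ le_rfl
      · exact hi2 ▸ hle
    -- `s 0 ^ (p - j) * s 1 ^ j * c j = - ∑ i > j`
    have h2 : s 0 ^ (p - j) * s 1 ^ j * c j =
        -∑ i ∈ Finset.Ioc j p, s 0 ^ (p - i) * s 1 ^ i * c i := by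
      have h3 : Finset.range (p + 1) = Finset.range j ∪ ({j} ∪ Finset.Ioc j p) := by
        ext i
        simp only [Finset.mem_range, Finset.mem_union, Finset.mem_singleton, Finset.mem_Ioc]
        omega
      rw [h3, Finset.sum_union, Finset.sum_union, Finset.sum_singleton] at heq
      · have h4 : ∑ i ∈ Finset.range j, s 0 ^ (p - i) * s 1 ^ i * c i = 0 := by
          refine Finset.sum_eq_zero fun i hi => ?_
          have h5 := hmin i (Finset.mem_range.1 hi)
          rw [Finset.mem_range] at hi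
          have h6 : c i = 0 := by
            by_contra h7
            exact h5 ⟨by omega, h7⟩
          rw [h6, mul_zero]
        rw [h4, zero_add] at heq
        exact eq_neg_of_add_eq_zero_left heq
      · rw [Finset.disjoint_left]
        intro i h4 h5
        simp only [Finset.mem_singleton, Finset.mem_Ioc] at h4 h5
        omega
      · rw [Finset.disjoint_left]
        intro i h4 h5
        simp only [Finset.mem_range, Finset.mem_union, Finset.mem_singleton, Finset.mem_Ioc] at h4 h5
        omega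
    have h3 := ord_sum_ge P (Finset.Ioc j p) (fun i => s 0 ^ (p - i) * s 1 ^ i * c i)
      ((p - j - 1 : ℤ) * P.ord (s 0) + (j + 1) * P.ord (s 1) + q * minOrd P y) ?_
    · have hL : s 0 ^ (p - j) * s 1 ^ j * c j ≠ 0 :=
        mul_ne_zero (mul_ne_zero (pow_ne_zero _ hs0) (pow_ne_zero _ hs1)) hcj
      have h4 : ∑ i ∈ Finset.Ioc j p, s 0 ^ (p - i) * s 1 ^ i * c i ≠ 0 := by
        intro h5
        rw [h5, neg_zero] at h2
        exact hL h2
      have h5 := h3.resolve_left h4
      have h6 := congrArg P.ord h2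
      rw [P.ord_neg, P.ord_mul (mul_ne_zero (pow_ne_zero _ hs0) (pow_ne_zero _ hs1)) hcj,
        P.ord_mul (pow_ne_zero _ hs0) (pow_ne_zero _ hs1), P.ord_pow, P.ord_pow,
        Nat.cast_sub hj] at h6
      rw [h1]
      nlinarith
    · intro i hi
      rw [Finset.mem_Ioc] at hi
      rcases hc P i hi.2 with h4 | h4
      · left
        rw [h4, mul_zero]
      · by_cases h5 : c i = 0
        · left
          rw [h5, mul_zero]
        right
        rw [P.ord_mul (mul_ne_zero (pow_ne_zero _ hs0) (pow_ne_zero _ hs1)) h5,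
          P.ord_mul (pow_ne_zero _ hs0) (pow_ne_zero _ hs1), P.ord_pow, P.ord_pow,
          Nat.cast_sub hi.2]
        have h6 : (0 : ℤ) ≤ (i - (j + 1) : ℤ) := by
          have := hi.1
          omega
        have h7 := mul_nonneg h6 (sub_nonneg.2 hle)
        nlinarith

end

end Pool.Agent.X324.LE
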